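import Mathlib
import Pool.Agent.H452R3.BS.Q7
import Pool.Agent.H383.PZ.V4
import Pool.Agent.H814R2.PZA4

open Filter Topology

namespace Pool.Agent.Results.MP_bc6037_nt.BothSigns

/-- `∑_{n ≤ x} d_k(n)` -/
noncomputable def D (k : ℕ) (x : ℝ) : ℝ :=
  ∑ n ∈ Finset.Icc 1 ⌊x⌋₊, (((ArithmeticFunction.zeta ^ k : ArithmeticFunction ℕ) n : ℕ) : ℝ)

/-- the sign: `+1` for `k ≡ 2, 3, 4 (mod 8)` and `-1` otherwise -/
noncomputable def sg (k : ℕ) : ℝ := if k % 8 = 2 ∨ k % 8 = 3 ∨ k % 8 = 4 then 1 else -1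

/-- `τ_k = 1/2, 3/2, 1` for `k ≡ 1 (mod 4)`, `k ≡ 3 (mod 4)`, `k` even -/
noncomputable def tau (k : ℕ) : ℝ := if k % 4 = 1 then 1/2 else if k % 4 = 3 then 3/2 else 1

/-- `θ_k = (k + 1 + 2 τ_k) / (2 k)` -/
noncomputable def th (k : ℕ) : ℝ := ((k : ℝ) + 1 + 2 * tau k) / (2 * k)

/-- the exponent `e_k = k - 1 + ((k-1)/(k-1-2τ_k)) (θ_k (k^{1/θ_k} - 1) - (k - 1))` -/
noncomputable def ee (k : ℕ) : ℝ :=
  ((k : ℝ) - 1) + ((k : ℝ) - 1) / ((k : ℝ) - 1 - 2 * tau k) * (th k * ((k : ℝ) ^ (1 / th k) - 1) - ((k : ℝ) - 1))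

open Classical in
/-- Large values of the second sign, with frequency, of the error term of the Piltz divisor problem, for `k ≥ 4`.
Let `P` be the polynomial of degree `k-1` with
`∑_{n ≤ x} d_k(n) = x P(log x) + O(x^{1-1/k} (log x)^{k-1})` and `Δ(x) = ∑_{n ≤ x} d_k(n) - x P(log x)`.
Let `s = -sg(k)`, or, if `k ≡ 1 (mod 4)`, let `s` be either of `1` and `-1`. Then:
* For every `ε > 0` there is `c > 0` such that for all large `X` there is `x` in `[X^{1-ε}, X]` with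
`s Δ(x) ≥ c (x log x)^{(k-1)/(2k)} (log log x)^{e_k}`, and `e_k ≥ k - 1`.
* For all large `N` and all `V` between a constant and `c₀ (log N)^{(k-1)/(2k)} (log log N)^{e_k}`, the number of
`1 ≤ j ≤ N` such that `s Δ(x) ≥ V x^{(k-1)/(2k)}` for some `x` with `j^k ≤ x < (j+1)^k` is at least
`N exp(-C₀ V^b (log V)^{-b e_k}) / log N`, `b = 2k/(k-1)`, and this is at least `N^{1-ε}`. -/
theorem result (k : ℕ) (hk : 4 ≤ k) :
    ∃ P : Polynomial ℝ, P.natDegree = k - 1 ∧ P.leadingCoeff = 1 / ((k - 1).factorial : ℝ) ∧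
      (∃ C : ℝ, ∀ x : ℝ, 1 ≤ x →
        |D k x - x * P.eval (Real.log x)| ≤ C * x ^ (1 - 1 / (k : ℝ)) * (1 + Real.log x) ^ (k - 1)) ∧
      (k : ℝ) - 1 ≤ ee k ∧
      ∀ s : ℝ, (s = 1 ∨ s = -1) → (k % 4 = 1 ∨ s = -(sg k)) →
      (∀ ε : ℝ, 0 < ε → ∃ c : ℝ, 0 < c ∧ ∃ X₀ : ℝ, ∀ X : ℝ, X₀ ≤ X → ∃ x : ℝ, X ^ (1 - ε) ≤ x ∧ x ≤ X ∧
        c * (x * Real.log x) ^ (((k : ℝ) - 1) / (2 * k)) * (Real.log (Real.log x)) ^ ee k ≤
          s * (D k x - x * P.eval (Real.log x))) ∧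
      (∃ C₀ V₀ : ℝ, 0 < C₀ ∧ 1 < V₀ ∧ ∀ ε : ℝ, 0 < ε → ∃ c₀ : ℝ, 0 < c₀ ∧ ∃ N₀ : ℕ, ∀ N : ℕ, N₀ ≤ N →
        ∀ V : ℝ, V₀ ≤ V →
          V ≤ c₀ * (Real.log N) ^ (((k : ℝ) - 1) / (2 * k)) * (Real.log (Real.log N)) ^ ee k →
          (N : ℝ) ^ (1 - ε) ≤
            N * Real.exp (-(C₀ * V ^ (2 * (k : ℝ) / (k - 1)) * (Real.log V) ^ (-(2 * (k : ℝ) / (k - 1) * ee k)))) /
              Real.log N ∧
          N * Real.exp (-(C₀ * V ^ (2 * (k : ℝ) / (k - 1)) * (Real.log V) ^ (-(2 * (k : ℝ) / (k - 1) * ee k)))) /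
              Real.log N ≤
            (((Finset.Icc 1 N).filter (fun j : ℕ => ∃ x : ℝ, (j : ℝ) ^ k ≤ x ∧ x < (j + 1) ^ k ∧
              V * x ^ (((k : ℝ) - 1) / (2 * k)) ≤ s * (D k x - x * P.eval (Real.log x)))).card : ℝ)) := by
  have hk2 : 2 ≤ k := by omega
  have hk' : (4:ℝ) ≤ k := by exact_mod_cast hk
  have hk1 : (0:ℝ) < (k:ℝ) - 1 := by linarith
  have hk0 : (0:ℝ) < k := by linarith
  obtain ⟨P, hP1, hP2, hV⟩ := Pool.Agent.H383.PZ.voronoi_k k hk2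
  have hd : P.natDegree = k - 1 := by
    apply le_antisymm (by omega)
    apply Polynomial.le_natDegree_of_ne_zero
    rw [hP2]
    have := Nat.factorial_pos (k-1)
    positivity
  obtain ⟨C, _, hC⟩ := Pool.Agent.H814R2.PZA4.crude k hk2 P hV
  have et : tau k = Pool.Agent.H452R3.BS.tau k := by
    unfold tau Pool.Agent.H452R3.BS.tau Pool.Agent.H452R3.BS.jj
    split_ifs <;> norm_num
  have ee_eq : ee k = Pool.Agent.H452R3.BS.EE k (Pool.Agent.H452R3.BS.tau k) := by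
    unfold ee Pool.Agent.H452R3.BS.EE th Pool.Agent.H452R3.BS.th
    rw [et]
  have hEE := Pool.Agent.H452R3.BS.EE_ge hk2 (Pool.Agent.H452R3.BS.tau_pos k) (Pool.Agent.H452R3.BS.tau_lt hk)
  rw [← ee_eq] at hEE
  refine ⟨P, hd, by rw [Polynomial.leadingCoeff, hd, hP2], ⟨C, hC⟩, hEE, ?_⟩
  intro s hs hc
  have htail := Pool.Agent.H452R3.BS.piltz_both hk hs hc P hV
  rw [← ee_eq] at htail
  refine ⟨?_, htail⟩
  obtain ⟨C₀, V₀, hC₀, hV₀, htail⟩ := htail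
  apply Pool.Agent.H452R2.PO.omega_of_tail hk2 (Δ := fun x => s * (D k x - x * P.eval (Real.log x)))
    (a := ((k : ℝ) - 1) / (2 * k)) (γ := ee k) (V₀ := V₀) (by positivity) (by linarith)
  intro ε hε
  obtain ⟨c₀, hc₀, N₀, h⟩ := htail ε hε
  exact ⟨c₀, hc₀, N₀, fun N hN V hV hVN => (h N hN V hV hVN).1.trans (h N hN V hV hVN).2⟩

end Pool.Agent.Results.MP_bc6037_nt.BothSigns
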