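import Mathlib
import Pool.Agent.H383.PZ.W5

open Filter Topology

namespace Pool.Agent.Results.MP_bc6037_nt.OmegaMinusThree

/-- `∑_{n ≤ x} d_3(n)` -/
noncomputable def D3 (x : ℝ) : ℝ :=
  ∑ n ∈ Finset.Icc 1 ⌊x⌋₊, (((ArithmeticFunction.zeta ^ 3 : ArithmeticFunction ℕ) n : ℕ) : ℝ)

/-- Large negative values of the error term of the Piltz divisor problem for `k = 3`: let `P` be the polynomial
of degree `2` with `∑_{n ≤ x} d_3(n) = x P(log x) + O(x^{2/3} log^2 x)` and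
`Δ_3(x) = ∑_{n ≤ x} d_3(n) - x P(log x)`. There is `c > 0` such that for all large `X` there is a natural
number `n` between `√X` and `X` with
`Δ_3(n) ≤ -c (n log n)^{1/3} (log log n) (log log log n)^{-4/3}`. -/
theorem result : ∃ P : Polynomial ℝ, P.natDegree = 2 ∧ P.leadingCoeff = 1 / 2 ∧
    (∃ C : ℝ, ∀ x : ℝ, 1 ≤ x → |D3 x - x * P.eval (Real.log x)| ≤ C * x ^ (2/3 : ℝ) * (1 + Real.log x) ^ 2) ∧
    ∃ c : ℝ, 0 < c ∧ ∃ X₀ : ℝ, ∀ X : ℝ, X₀ ≤ X → ∃ n : ℕ, √X ≤ n ∧ (n : ℝ) ≤ X ∧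
      D3 n - n * P.eval (Real.log n) ≤
        -c * ((n : ℝ) * Real.log n) ^ (1 / 3 : ℝ) * Real.log (Real.log n) *
          (Real.log (Real.log (Real.log n))) ^ (-(4 / 3) : ℝ) := by
  obtain ⟨P, hP, hP2, ⟨C, _, hC⟩, c, hc, h⟩ := Pool.Agent.H383.PZ.omega3'
  have hd : P.natDegree = 2 := by
    apply le_antisymm (by omega)
    apply Polynomial.le_natDegree_of_ne_zero
    rw [hP2]; norm_num
  refine ⟨P, hd, by rw [Polynomial.leadingCoeff, hd, hP2], ⟨C, hC⟩, c, hc, ?_⟩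
  obtain ⟨X₀, hX⟩ := Filter.eventually_atTop.mp h
  exact ⟨X₀, fun X hX0 => hX X hX0⟩

end Pool.Agent.Results.MP_bc6037_nt.OmegaMinusThree
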