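import Mathlib
import Pool.Agent.H452R2.PO.P6
import Pool.Agent.H383.PZ.V4
import Pool.Agent.H814R2.PZA4

open Filter Topology

namespace Pool.Agent.Results.MP_bc6037_nt.OmegaRecord

/-- `∑_{n ≤ x} d_k(n)` -/
noncomputable def D (k : ℕ) (x : ℝ) : ℝ :=
  ∑ n ∈ Finset.Icc 1 ⌊x⌋₊, (((ArithmeticFunction.zeta ^ k : ArithmeticFunction ℕ) n : ℕ) : ℝ)

/-- the sign: `+1` for `k ≡ 2, 3, 4 (mod 8)` and `-1` otherwise, that is for `k ≡ 6, 7, 0 (mod 8)` -/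
noncomputable def sg (k : ℕ) : ℝ := if k % 8 = 2 ∨ k % 8 = 3 ∨ k % 8 = 4 then 1 else -1

/-- the exponent `γ_k = ((k+1)/(2k)) (k^{2k/(k+1)} - 1)` -/
noncomputable def gam (k : ℕ) : ℝ := (((k : ℝ) + 1) / (2 * k)) * ((k : ℝ) ^ (2 * (k : ℝ) / ((k : ℝ) + 1)) - 1)

open Classical in
/-- Large values, with sign and frequency, of the error term of the Piltz divisor problem, for `k ≥ 2` not
congruent to `1` mod `4`. Let `P` be the polynomial of degree `k-1` with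
`∑_{n ≤ x} d_k(n) = x P(log x) + O(x^{1-1/k} (log x)^{k-1})` and `Δ(x) = ∑_{n ≤ x} d_k(n) - x P(log x)`.
* For every `ε > 0` there is `c > 0` such that for all large `X` there is `x` in `[X^{1-ε}, X]` with
`sg(k) Δ(x) ≥ c (x log x)^{(k-1)/(2k)} (log log x)^{γ_k}`.
* For all large `N` and all `V` between a constant and `c₀ (log N)^{(k-1)/(2k)} (log log N)^{γ_k}`, the number of
`1 ≤ j ≤ N` such that `sg(k) Δ(x) ≥ V x^{(k-1)/(2k)}` for some `x` with `j^k ≤ x < (j+1)^k` is at least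
`N exp(-C₀ V^b (log V)^{-b γ_k})`, `b = 2k/(k-1)`, and this is at least `N^{1-ε}`. -/
theorem result (k : ℕ) (hk : 2 ≤ k) (h4 : k % 4 ≠ 1) :
    ∃ P : Polynomial ℝ, P.natDegree = k - 1 ∧ P.leadingCoeff = 1 / ((k - 1).factorial : ℝ) ∧
      (∃ C : ℝ, ∀ x : ℝ, 1 ≤ x →
        |D k x - x * P.eval (Real.log x)| ≤ C * x ^ (1 - 1 / (k : ℝ)) * (1 + Real.log x) ^ (k - 1)) ∧
      (∀ ε : ℝ, 0 < ε → ∃ c : ℝ, 0 < c ∧ ∃ X₀ : ℝ, ∀ X : ℝ, X₀ ≤ X → ∃ x : ℝ, X ^ (1 - ε) ≤ x ∧ x ≤ X ∧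
        c * (x * Real.log x) ^ (((k : ℝ) - 1) / (2 * k)) * (Real.log (Real.log x)) ^ gam k ≤
          sg k * (D k x - x * P.eval (Real.log x))) ∧
      (∃ C₀ V₀ : ℝ, 0 < C₀ ∧ 1 < V₀ ∧ ∀ ε : ℝ, 0 < ε → ∃ c₀ : ℝ, 0 < c₀ ∧ ∃ N₀ : ℕ, ∀ N : ℕ, N₀ ≤ N →
        ∀ V : ℝ, V₀ ≤ V →
          V ≤ c₀ * (Real.log N) ^ (((k : ℝ) - 1) / (2 * k)) * (Real.log (Real.log N)) ^ gam k →
          (N : ℝ) ^ (1 - ε) ≤
            N * Real.exp (-(C₀ * V ^ (2 * (k : ℝ) / (k - 1)) * (Real.log V) ^ (-(2 * (k : ℝ) / (k - 1) * gam k)))) ∧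
          N * Real.exp (-(C₀ * V ^ (2 * (k : ℝ) / (k - 1)) * (Real.log V) ^ (-(2 * (k : ℝ) / (k - 1) * gam k)))) ≤
            (((Finset.Icc 1 N).filter (fun j : ℕ => ∃ x : ℝ, (j : ℝ) ^ k ≤ x ∧ x < (j + 1) ^ k ∧
              V * x ^ (((k : ℝ) - 1) / (2 * k)) ≤ sg k * (D k x - x * P.eval (Real.log x)))).card : ℝ)) := by
  have hk' : (2:ℝ) ≤ k := by exact_mod_cast hk
  have hk1 : (0:ℝ) < (k:ℝ) - 1 := by linarith
  have hk0 : (0:ℝ) < k := by linarith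
  obtain ⟨P, hP1, hP2, hV⟩ := Pool.Agent.H383.PZ.voronoi_k k hk
  have hd : P.natDegree = k - 1 := by
    apply le_antisymm (by omega)
    apply Polynomial.le_natDegree_of_ne_zero
    rw [hP2]
    have := Nat.factorial_pos (k-1)
    positivity
  obtain ⟨C, _, hC⟩ := Pool.Agent.H814R2.PZA4.crude k hk P hV
  have hz := Pool.Agent.H452R2.PO.zw_ge hk
  have hγ : 0 ≤ gam k := by
    unfold gam
    unfold Pool.Agent.H452R2.PO.zw at hz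
    exact mul_nonneg (by positivity) (by linarith)
  have htail := Pool.Agent.H452R2.PO.piltz_tail hk h4 P hV
  have e1 : (((k:ℝ) + 1) / (k - 1)) * ((k:ℝ) ^ (2 * (k:ℝ) / ((k:ℝ) + 1)) - 1) = 2 * (k : ℝ) / (k - 1) * gam k := by
    unfold gam; field_simp
  rw [e1] at htail
  change ∃ C₀ V₀ : ℝ, 0 < C₀ ∧ 1 < V₀ ∧ ∀ ε : ℝ, 0 < ε → ∃ c₀ : ℝ, 0 < c₀ ∧ ∃ N₀ : ℕ, ∀ N : ℕ, N₀ ≤ N →
        ∀ V : ℝ, V₀ ≤ V →
          V ≤ c₀ * (Real.log N) ^ (((k : ℝ) - 1) / (2 * k)) * (Real.log (Real.log N)) ^ gam k →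
          (N : ℝ) ^ (1 - ε) ≤
            N * Real.exp (-(C₀ * V ^ (2 * (k : ℝ) / (k - 1)) * (Real.log V) ^ (-(2 * (k : ℝ) / (k - 1) * gam k)))) ∧
          N * Real.exp (-(C₀ * V ^ (2 * (k : ℝ) / (k - 1)) * (Real.log V) ^ (-(2 * (k : ℝ) / (k - 1) * gam k)))) ≤
            (((Finset.Icc 1 N).filter (fun j : ℕ => ∃ x : ℝ, (j : ℝ) ^ k ≤ x ∧ x < (j + 1) ^ k ∧
              V * x ^ (((k : ℝ) - 1) / (2 * k)) ≤ sg k * (D k x - x * P.eval (Real.log x)))).card : ℝ) at htail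
  refine ⟨P, hd, by rw [Polynomial.leadingCoeff, hd, hP2], ⟨C, hC⟩, ?_, htail⟩
  obtain ⟨C₀, V₀, hC₀, hV₀, htail⟩ := htail
  apply Pool.Agent.H452R2.PO.omega_of_tail hk (Δ := fun x => sg k * (D k x - x * P.eval (Real.log x)))
    (a := ((k : ℝ) - 1) / (2 * k)) (γ := gam k) (V₀ := V₀) (by positivity) hγ
  intro ε hε
  obtain ⟨c₀, hc₀, N₀, h⟩ := htail ε hε
  exact ⟨c₀, hc₀, N₀, fun N hN V hV hVN => (h N hN V hV hVN).1.trans (h N hN V hV hVN).2⟩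

end Pool.Agent.Results.MP_bc6037_nt.OmegaRecord
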